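import Mathlib
import Pool.Agent.H510R3.PQ2

/-!
# There is no `{p, q}`-Diophantine quadruple

For any two distinct primes `p`, `q`, without any Wieferich or congruence condition, there are no four
pairwise distinct positive integers such that every prime divisor of each of the six products of two
of them plus one lies in `{p, q}`.
-/

set_option autoImplicit false

namespace Pool.Agent.Results.MP_7eb8f3_nt.NoQuadruple

/-- The quadruple `a` consists of pairwise distinct positive integers and every prime divisor of
`a i * a j + 1` (`i ≠ j`) is `p` or `q`. -/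
def IsDiophantineQuadruple (p q : ℕ) (a : Fin 4 → ℕ) : Prop :=
  (∀ i, 0 < a i) ∧ Function.Injective a ∧
    ∀ i j, i ≠ j → ∀ l : ℕ, l.Prime → l ∣ a i * a j + 1 → l = p ∨ l = q

/-- a positive integer all of whose prime divisors are `p` or `q` is of the form `p ^ i * q ^ j` -/
lemma form {p q n : ℕ} (hpq : p ≠ q) (hn : n ≠ 0) (h : ∀ l : ℕ, l.Prime → l ∣ n → l = p ∨ l = q) :
    ∃ i j : ℕ, n = p ^ i * q ^ j := by
  refine ⟨n.factorization p, n.factorization q, ?_⟩
  have h1 : n.primeFactors ⊆ {p, q} := by
    intro l hl
    rw [Nat.mem_primeFactors] at hl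
    rw [Finset.mem_insert, Finset.mem_singleton]
    exact h l hl.1 hl.2.1
  have h2 : n = ∏ l ∈ ({p, q} : Finset ℕ), l ^ n.factorization l := by
    conv_lhs => rw [← Nat.prod_factorization_pow_eq_self hn]
    rw [Finsupp.prod]
    apply Finset.prod_subset
    · simpa using h1
    · intro l _ hl
      rw [Finsupp.mem_support_iff, not_not] at hl
      rw [hl, pow_zero]
  rwa [Finset.prod_pair hpq] at h2

/-- For any distinct primes `p`, `q` there is no `{p, q}`-Diophantine quadruple. -/
theorem result (p q : ℕ) (hp : p.Prime) (hq : q.Prime) (hpq : p ≠ q) :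
    ¬ ∃ a : Fin 4 → ℕ, IsDiophantineQuadruple p q a := by
  rintro ⟨a, hpos, hinj, h⟩
  -- sort the four values
  classical
  set s : Finset ℕ := Finset.univ.image a with hs
  have hcard : s.card = 4 := by
    rw [hs, Finset.card_image_of_injective _ hinj, Finset.card_univ, Fintype.card_fin]
  set f := s.orderEmbOfFin hcard with hf
  have hmem : ∀ t : Fin 4, f t ∈ s := fun t => s.orderEmbOfFin_mem hcard t
  have hlt : ∀ {t u : Fin 4}, t < u → f t < f u := fun {t u} htu => f.strictMono htu
  have hp0 : ∀ t, 0 < f t := by
    intro t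
    obtain ⟨i, -, hi⟩ := Finset.mem_image.1 (hmem t)
    rw [← hi]
    exact hpos i
  have key : ∀ {t u : Fin 4}, t < u → ∃ i j : ℕ, f t * f u + 1 = p ^ i * q ^ j := by
    intro t u htu
    obtain ⟨i, -, hi⟩ := Finset.mem_image.1 (hmem t)
    obtain ⟨j, -, hj⟩ := Finset.mem_image.1 (hmem u)
    have hij : i ≠ j := by
      rintro rfl
      have := hlt htu
      omega
    rw [← hi, ← hj]
    exact form hpq (by omega) (h i j hij)
  exact Pool.Agent.H510R3.PQ.no_quadruple hp hq hpq (hp0 0)
    (hlt (by decide : (0 : Fin 4) < 1)) (hlt (by decide : (1 : Fin 4) < 2))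
    (hlt (by decide : (2 : Fin 4) < 3)) (key (by decide)) (key (by decide)) (key (by decide))
    (key (by decide)) (key (by decide)) (key (by decide))

end Pool.Agent.Results.MP_7eb8f3_nt.NoQuadruple
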